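import Pool.Agent.Helper26.GenusDefs
import Pool.Agent.Helper26.GenusCount

set_option autoImplicit false

namespace Pool.Agent.Results.MP_752880_co.ThreeBlocksGenus

open Finset Pool.Agent.Helper26.Genus

/-- For all `n ≥ 1` and `g ≥ 0`, the number of genus-`g` partitions of an `n`-element set into
three blocks is `(4^(g+1) - 1) (n - g - 1) / (3 (g + 2)) * C(n, 2g+3)`. -/
theorem result (n g : ℕ) (hn : 1 ≤ n) :
    (genusCount n 3 g : ℚ)
      = ((4 : ℚ) ^ (g + 1) - 1) * ((n : ℚ) - g - 1) / (3 * ((g : ℚ) + 2))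
          * (n.choose (2 * g + 3) : ℚ) := by
  classical
  obtain ⟨m, rfl⟩ : ∃ m, n = m + 1 := ⟨n - 1, by omega⟩
  have h1 := six_mul_card m (2 * g + 3) (by omega)
  have h2 := six_mul_card m (2 * g + 4) (by omega)
  have hc : genusCount (m + 1) 3 g
      = #(univ.filter (fun P : Finpartition (univ : Finset (Fin (m + 1))) =>
          #P.parts = 3 ∧ #(runEnds P) = 2 * g + 3))
        + #(univ.filter (fun P : Finpartition (univ : Finset (Fin (m + 1))) =>
          #P.parts = 3 ∧ #(runEnds P) = 2 * g + 4)) := by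
    unfold genusCount
    rw [Nat.card_eq_fintype_card, Fintype.card_subtype, ← card_union_of_disjoint]
    · congr 1
      ext P
      simp only [mem_filter, mem_univ, true_and, mem_union]
      constructor
      · rintro ⟨h3, hg⟩
        rcases (hasGenus_iff P h3 g).1 hg with h | h
        · left; exact ⟨h3, h⟩
        · right; exact ⟨h3, h⟩
      · rintro (⟨h3, h⟩ | ⟨h3, h⟩)
        · exact ⟨h3, (hasGenus_iff P h3 g).2 (Or.inl h)⟩
        · exact ⟨h3, (hasGenus_iff P h3 g).2 (Or.inr h)⟩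
    · rw [disjoint_left]
      intro P h h'
      rw [mem_filter] at h h'
      have a := h.2.2
      have b := h'.2.2
      omega
  rw [hc]
  set A := #(univ.filter (fun P : Finpartition (univ : Finset (Fin (m + 1))) =>
          #P.parts = 3 ∧ #(runEnds P) = 2 * g + 3)) with hA
  set B := #(univ.filter (fun P : Finpartition (univ : Finset (Fin (m + 1))) =>
          #P.parts = 3 ∧ #(runEnds P) = 2 * g + 4)) with hB
  have e3 : (-1 : ℤ) ^ (2 * g + 3) = -1 := Odd.neg_one_pow ⟨g + 1, by ring⟩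
  have e4 : (-1 : ℤ) ^ (2 * g + 4) = 1 := Even.neg_one_pow ⟨g + 2, by ring⟩
  have p3 : (2 : ℤ) ^ (2 * g + 3) = 2 * 4 ^ (g + 1) := by
    rw [show 2 * g + 3 = 2 * (g + 1) + 1 by ring, pow_succ, pow_mul]; norm_num; ring
  have p4 : (2 : ℤ) ^ (2 * g + 4) = 4 * 4 ^ (g + 1) := by
    rw [show 2 * g + 4 = 2 * (g + 1) + 2 by ring, pow_add, pow_mul]; norm_num; ring
  rw [e3, p3] at h1
  rw [e4, p4] at h2
  have q1 : (6 : ℚ) * (A : ℚ) = (2 * 4 ^ (g + 1) - 3 - (-1))
      * (((m + 1).choose (2 * g + 3) : ℕ) : ℚ) := by exact_mod_cast h1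
  have q2 : (6 : ℚ) * (B : ℚ) = (4 * 4 ^ (g + 1) - 3 - 1)
      * (((m + 1).choose (2 * g + 4) : ℕ) : ℚ) := by exact_mod_cast h2
  have hch : ((2 * (g : ℚ) + 4)) * (((m + 1).choose (2 * g + 4) : ℕ) : ℚ)
      = (((m + 1).choose (2 * g + 3) : ℕ) : ℚ) * (((m : ℚ) + 1) - (2 * g + 3)) := by
    rcases le_or_gt (2 * g + 3) (m + 1) with hle | hlt
    · have h := Nat.choose_succ_right_eq (m + 1) (2 * g + 3)
      have h' : (((m + 1).choose (2 * g + 3 + 1) : ℕ) : ℚ) * ((2 * g + 3 + 1 : ℕ) : ℚ)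
          = (((m + 1).choose (2 * g + 3) : ℕ) : ℚ) * ((m + 1 - (2 * g + 3) : ℕ) : ℚ) := by
        exact_mod_cast h
      rw [Nat.cast_sub hle] at h'
      push_cast at h'
      rw [← h']
      ring
    · rw [Nat.choose_eq_zero_of_lt hlt, Nat.choose_eq_zero_of_lt (by omega)]
      simp
  have hg2 : (g : ℚ) + 2 ≠ 0 := by positivity
  push_cast
  field_simp
  linear_combination (1 / 2 : ℚ) * ((g : ℚ) + 2) * q1 + (1 / 2 : ℚ) * ((g : ℚ) + 2) * q2
    + ((4 : ℚ) ^ (g + 1) - 1) * hch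

end Pool.Agent.Results.MP_752880_co.ThreeBlocksGenus
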